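import Mathlib
import Pool.Agent.SolIndex.Main

set_option autoImplicit false

namespace Pool.Agent.Results.MP_6facb1_lc.SolvableIndexSet

/-- A finite presentation: a number `m` of generators and a finite list of words in the generators
`0, .., m - 1` and their inverses (`(i, true)` is the generator `i`, `(i, false)` its inverse). -/
abbrev FinPres : Type := Σ m : ℕ, List (List (Fin m × Bool))

/-- The group presented by a finite presentation. -/
abbrev Presented (p : FinPres) : Type :=
  PresentedGroup {x : FreeGroup (Fin p.1) | ∃ w ∈ p.2, FreeGroup.mk w = x}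

/-- An effective enumeration of all finite presentations: every finite presentation occurs, and the
number of generators and the list of relators of the `e`-th one are computed from `e`. -/
structure EffectiveEnumeration (π : ℕ → FinPres) : Prop where
  surjective : Function.Surjective π
  generators : Computable fun e => (π e).1
  relators : Computable fun e => (π e).2.map (List.map fun x => ((x.1 : ℕ), x.2))

/-- `Σ₃` sets of natural numbers: `∃ a ∀ b ∃ c` over a computable relation. -/
def Sigma3 (A : ℕ → Prop) : Prop :=
  ∃ R : ℕ × ℕ × ℕ × ℕ → Prop, ComputablePred R ∧ ∀ k, A k ↔ ∃ a, ∀ b, ∃ c, R (k, a, b, c)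

open SolIndex SolIndex.Upper

theorem family (B : ℕ → Prop) (hB : Sigma3 B) :
    ∃ (m : ℕ) (x : Fin m) (L : List (List (Fin m × Bool))), ∀ k,
      B k ↔ Group.IsSolvable (Presented ⟨m, List.replicate (2 ^ 2 ^ k + 1) (x, true) :: L⟩) := by
  obtain ⟨R, hR, hB⟩ := hB
  obtain ⟨Dead, hD, h1, h2, h3⟩ := exists_dead R hR
  obtain ⟨S, ρ, ι, _, _, _, _, rule, H, gtot, ytot, hM⟩ := exists_machine Dead hD
  obtain ⟨n, x, L, hL⟩ := exists_words rule
  refine ⟨n, x, L, fun k => ?_⟩
  obtain ⟨e⟩ := hL (Nat.fermatNumber k)
  have hcop : ∀ g y, ¬ Dead g y →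
      g = Nat.fermatNumber k ∨ Nat.Coprime g (Nat.fermatNumber k) := by
    intro g y hg
    obtain ⟨k', rfl⟩ := h1 g y hg
    by_cases hk : k' = k
    · exact Or.inl (by rw [hk])
    · exact Or.inr (Nat.coprime_fermatNumber_fermatNumber hk)
  have key : B k ↔ Group.IsSolvable (Grp rule (Nat.fermatNumber k)) := by
    rw [hB k]
    constructor
    · intro h
      obtain ⟨n₀, hn₀⟩ := h2 k h
      exact solvable_core rule _ H gtot ytot Dead hM n₀ hn₀ hcop
    · intro h
      by_contra hne
      exact not_solvable_core rule _ H gtot ytot Dead hM (Nat.odd_fermatNumber k)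
        (by have := Nat.three_le_fermatNumber k; omega) (h3 k hne) h
  rw [key]
  constructor
  · intro h
    exact @Group.isSolvable_of_surjective _ _ _ _ e.toMonoidHom e.surjective h
  · intro h
    exact @Group.isSolvable_of_surjective _ _ _ _ e.symm.toMonoidHom e.symm.surjective h

theorem encode_pres {m : ℕ} (L : List (List (Fin m × Bool))) :
    Encodable.encode L =
      Encodable.encode (L.map (List.map fun x => ((x.1 : ℕ), x.2))) := by
  have h1 : ∀ w : List (Fin m × Bool),
      Encodable.encode w = Encodable.encode (w.map fun x => ((x.1 : ℕ), x.2)) := by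
    intro w
    induction w with
    | nil => rfl
    | cons x w ih =>
      rw [List.map_cons, Encodable.encode_list_cons, Encodable.encode_list_cons, ih]
      rfl
  induction L with
  | nil => rfl
  | cons w L ih =>
    rw [List.map_cons, Encodable.encode_list_cons, Encodable.encode_list_cons, ih, h1]

theorem upper (π : ℕ → FinPres) (hπ : EffectiveEnumeration π) :
    Sigma3 fun e => Group.IsSolvable (Presented (π e)) := by
  obtain ⟨R, ⟨hdec, hR⟩, h⟩ := sol_sigma3
  have hc : Computable fun e => Encodable.encode (π e) := by
    have : Computable fun e => Nat.pair (π e).1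
        (Encodable.encode ((π e).2.map (List.map fun x => ((x.1 : ℕ), x.2)))) :=
      Primrec₂.natPair.to_comp.comp hπ.generators (Computable.encode.comp hπ.relators)
    refine this.of_eq fun e => ?_
    rw [← encode_pres]
    rfl
  refine ⟨fun q => R (Encodable.encode (π q.1), q.2), ⟨fun q => hdec _, ?_⟩, fun e => ?_⟩
  · exact hR.comp ((hc.comp Computable.fst).pair Computable.snd)
  · rw [← h (Encodable.encode (π e))]
    simp only [Encodable.encodek, Option.some.injEq, exists_eq_left']
    exact Iff.rfl

theorem list_map_inj {α β : Type} {f : α → β} (hf : Function.Injective f) {L L' : List (List α)}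
    (h : L.map (List.map f) = L'.map (List.map f)) : L = L' :=
  (List.map_injective_iff.2 (List.map_injective_iff.2 hf)) h

theorem eq_pres (p q : FinPres) (h1 : p.1 = q.1)
    (h2 : p.2.map (List.map fun x => ((x.1 : ℕ), x.2)) =
      q.2.map (List.map fun x => ((x.1 : ℕ), x.2))) : p = q := by
  obtain ⟨m, L⟩ := p
  obtain ⟨m', L'⟩ := q
  obtain rfl : m = m' := h1
  have : L = L' := by
    refine list_map_inj (f := fun x : Fin m × Bool => ((x.1 : ℕ), x.2)) ?_ h2
    rintro ⟨a, b⟩ ⟨c, d⟩ h
    simp only [Prod.mk.injEq] at h
    exact Prod.ext (Fin.ext h.1) h.2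
  rw [this]

theorem lower (π : ℕ → FinPres) (hπ : EffectiveEnumeration π) (B : ℕ → Prop) (hB : Sigma3 B) :
    OneOneReducible B fun e => Group.IsSolvable (Presented (π e)) := by
  obtain ⟨m, x, L, h⟩ := family B hB
  let r : FinPres → List (List (ℕ × Bool)) := fun p => p.2.map (List.map fun x => ((x.1 : ℕ), x.2))
  let t : ℕ → FinPres := fun k => ⟨m, List.replicate (2 ^ 2 ^ k + 1) (x, true) :: L⟩
  have ht : Computable fun k => r (t k) := by
    have hpow : Primrec₂ (fun a b : ℕ => a ^ b) := Primrec₂.unpaired'.1 Nat.Primrec.pow
    have h1 : Primrec fun k : ℕ => 2 ^ (2 ^ k) + 1 :=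
      Primrec.nat_add.comp (hpow.comp (Primrec.const 2) (hpow.comp (Primrec.const 2) Primrec.id))
        (Primrec.const 1)
    have h2 : Primrec fun k : ℕ => (List.range (2 ^ 2 ^ k + 1)).map fun _ => ((x : ℕ), true) :=
      Primrec.list_map (Primrec.list_range.comp h1) (Primrec.const ((x : ℕ), true)).to₂
    refine (Primrec.list_cons.comp h2 (Primrec.const (r ⟨m, L⟩))).to_comp.of_eq fun k => ?_
    rw [List.map_const', List.length_range]
    show _ = (List.replicate (2 ^ 2 ^ k + 1) (x, true)).map (fun x => ((x.1 : ℕ), x.2)) :: _
    rw [List.map_replicate]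
  let p : ℕ → ℕ → Bool := fun k e => decide (((π e).1, r (π e)) = (m, r (t k)))
  have hp : Computable₂ p :=
    (Primrec.eq.decide.to_comp.comp ((hπ.generators.comp Computable.snd).pair
      (hπ.relators.comp Computable.snd))
      ((Computable.const m).pair (ht.comp Computable.fst)) : Computable fun a : ℕ × ℕ => p a.1 a.2)
  have hpt : ∀ k e, p k e = true ↔ π e = t k := by
    intro k e
    simp only [p, decide_eq_true_eq, Prod.mk.injEq]
    constructor
    · rintro ⟨h1, h2⟩
      exact eq_pres _ _ h1 h2
    · intro h
      rw [h]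
      exact ⟨rfl, rfl⟩
  have hdom : ∀ k, (Nat.rfind fun e => Part.some (p k e)).Dom := by
    intro k
    obtain ⟨e, he⟩ := hπ.surjective (t k)
    exact Nat.rfind_dom.2 ⟨e, by simpa using ((hpt k e).2 he), fun _ => trivial⟩
  have hf : ∀ k, π ((Nat.rfind fun e => Part.some (p k e)).get (hdom k)) = t k := by
    intro k
    have := Nat.rfind_spec (Part.get_mem (hdom k))
    simp only [Part.mem_some_iff] at this
    exact (hpt k _).1 this.symm
  refine ⟨fun k => (Nat.rfind fun e => Part.some (p k e)).get (hdom k), ?_, ?_, fun k => ?_⟩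
  · refine Partrec.of_eq (Partrec.rfind (p := fun k e => Part.some (p k e)) hp) fun k => ?_
    exact (Part.some_get _).symm
  · intro k k' hk
    have h1 : t k = t k' := by
      rw [← hf k, ← hf k']
      exact congrArg π hk
    have h2 : (t k).2 = (t k').2 := by
      simpa [t] using h1
    have h3 := congrArg List.length (List.head_eq_of_cons_eq h2)
    rw [List.length_replicate, List.length_replicate] at h3
    exact Nat.pow_right_injective le_rfl (Nat.pow_right_injective le_rfl (Nat.succ_injective h3))
  · show B k ↔ Group.IsSolvable (Presented (π _))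
    rw [hf k]
    exact h k

theorem exists_enumeration : ∃ π, EffectiveEnumeration π := by
  let q : ℕ → ℕ × List (List (ℕ × Bool)) := fun e => (Encodable.decode e).getD (0, [])
  have hq : Primrec q := Primrec.option_getD.comp Primrec.decode (Primrec.const (0, []))
  let π : ℕ → FinPres := fun e => ⟨(q e).1, (q e).2.map (List.filterMap fun y =>
    if h : y.1 < (q e).1 then some (⟨y.1, h⟩, y.2) else none)⟩
  have hval : ∀ e, (π e).2.map (List.map fun x => ((x.1 : ℕ), x.2)) = (q e).2.map
      (List.filterMap fun y => if y.1 < (q e).1 then some y else none) := by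
    intro e
    show ((q e).2.map _).map _ = _
    rw [List.map_map]
    refine List.map_congr_left fun w _ => ?_
    simp only [Function.comp]
    rw [List.map_filterMap]
    congr 1
    funext y
    by_cases h : y.1 < (q e).1
    · simp [h]
    · simp [h]
  refine ⟨π, ?_, ?_, ?_⟩
  · rintro ⟨m, L⟩
    refine ⟨Encodable.encode (m, L.map (List.map fun x => ((x.1 : ℕ), x.2))), ?_⟩
    have h1 : q (Encodable.encode (m, L.map (List.map fun x => ((x.1 : ℕ), x.2)))) =
        (m, L.map (List.map fun x => ((x.1 : ℕ), x.2))) := by
      simp only [q, Encodable.encodek, Option.getD_some]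
    apply eq_pres
    · show (q _).1 = m
      rw [h1]
    · rw [hval, h1, List.map_map]
      refine List.map_congr_left fun w _ => ?_
      simp only [Function.comp]
      rw [List.filterMap_map]
      have h2 : ((fun y : ℕ × Bool => if y.1 < m then some y else none) ∘
          fun x : Fin m × Bool => ((x.1 : ℕ), x.2)) = fun x => some ((x.1 : ℕ), x.2) := by
        funext x
        simp [x.1.2]
      rw [h2]
      simp
  · exact (Primrec.fst.comp hq).to_comp
  · have h3 : Primrec fun e => (q e).2.map
        (List.filterMap fun y => if y.1 < (q e).1 then some y else none) := by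
      refine Primrec.list_map (Primrec.snd.comp hq) ?_
      refine Primrec.listFilterMap Primrec.snd ?_
      refine Primrec.ite ?_ (Primrec.option_some.comp Primrec.snd) (Primrec.const none)
      exact Primrec.nat_lt.comp (Primrec.fst.comp Primrec.snd)
        (Primrec.fst.comp (hq.comp (Primrec.fst.comp Primrec.fst)))
    exact h3.to_comp.of_eq fun e => (hval e).symm

/-- **The index set of finitely presented solvable groups is `Σ₃`-complete.** -/
theorem result :
    (∀ π : ℕ → FinPres, EffectiveEnumeration π →
      Sigma3 (fun e => Group.IsSolvable (Presented (π e))) ∧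
      ∀ B : ℕ → Prop, Sigma3 B → OneOneReducible B fun e => Group.IsSolvable (Presented (π e))) ∧
    (∃ π : ℕ → FinPres, EffectiveEnumeration π) ∧
    ∀ B : ℕ → Prop, Sigma3 B →
      ∃ (m : ℕ) (x : Fin m) (L : List (List (Fin m × Bool))), ∀ k,
        B k ↔ Group.IsSolvable (Presented ⟨m, List.replicate (2 ^ 2 ^ k + 1) (x, true) :: L⟩) :=
  ⟨fun π hπ => ⟨upper π hπ, lower π hπ⟩, exists_enumeration, family⟩

end Pool.Agent.Results.MP_6facb1_lc.SolvableIndexSet
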